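import Mathlib
import Pool.Agent.Run7.h238.Kept.CyclicCubicFields
import Pool.Agent.Run7.h238.Kept.CubicFieldsRamifiedAtThree

/-!
# Beilinson's conjecture at `i = m = 1` for `y² + q y = x³` over a majority of all cyclic cubic fields

`q` is a prime `≡ 2` or `5` modulo `9` and `E_D : y² + D y = x³`.  For a number field `F` let `X` be the
curve `E_q` over `F`, regarded as a smooth projective variety over `ℚ`; in place of `X` one may take the
abelian threefold which is the restriction of scalars of `E_q` from `F` to `ℚ`, if `F` is cubic.  For both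
varieties `CH¹(X)⁰` is `E_q(F)` up to isogeny, and the `L`-function of `H¹(X)` is the `L`-function of `E_q`
over `F`.

The cyclic cubic fields `F` are the fields `ℚ(θ)`, `θ³ = 3 n θ + n u`, where `u`, `v` are positive integers
and `4 n = u² + 3 v²` is four times a squarefree number prime to `3`; `F ↦ (u, v)` is a bijection of the set
of the subfields of `ℂ` that are cyclic cubic fields onto the set of these pairs; the conductor of `F` is
`n` if `3 ∣ v` (`3` unramified) and `9 n` if `3 ∤ v` (`3` ramified).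

* The property `Good K q F`, `K = ℚ(√-3)`: the twist `E_{q n β}`, `β = (u + v √-3) / 2`, has only
  finitely many points over `K`, and the `3`-primary part of its Tate-Shafarevich group is trivial
  (`F(√-3) = K(∛(n β))`).
* For the good `F` the group `CH¹(X)⁰ = E_q(F)` is finite and the `L`-function of `H¹(X)` continues
  analytically to a neighbourhood of `s = 1` (the condition (H1)) and is not zero at `1`.  So
  `V¹ = CH¹(X)⁰ ⊗ ℚ = 0` and `ord_{s=1} L(X, s) = 0 = dim V¹`: the parts (i), (ii), (iii) of the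
  conjecture hold for `X` and `i = m = 1`.  Moreover `3` kills the `3`-primary part of `Ш(E_q / F)`.
* The proportion of the good fields among ALL cyclic cubic fields of conductor at most `X` tends to
  `∏_{i ≥ 0} (1 - 3^{-(2 i + 1)}) = 0.6390...`; the same holds among those in which `3` ramifies, and
  among those in which `3` does not ramify.

Proof (helper238, helper289 and helper741; this is `MP_32c55d_nt/AllCyclicCubicFields` of helper238): (1)
the `3`-descent over `K` (the starting files `Y703`, `R395`, `R432`, `N883` and the file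
`Run7/h707/TC/Crit3`) turns `Good` into the condition that a system of linear equations over the field with
three elements, whose coefficients are the cubic residue symbols of the prime divisors of `n` and `q` (and,
if `3 ∤ v`, the residues of `(p - 1) / 3`), has no nonzero solution; (2) for random symbols the system is
an antisymmetric matrix with a symmetric border, of two different shapes, and the probability is in both
cases the product (`Run7/h238/X/Bord` to `LAX`, `Run7/h238/Y/LAY`); (3) the symbols are equidistributed by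
the large sieve for the cubic symbols and a theorem of Halász (`Run7/h238/X/BoxX` to `LawX`,
`Run7/h238/Y/BoxY` to `LawY`); (4) the dictionaries of the fields and the pairs (`Run7/h741/CC`,
`Run7/h289/RD`), the `L`-function and the group of points over `F` (`Run7/h741/CC`, `Run7/h741/CR`).

This file (helper89) brings the theorem in the form of the present problem.
-/

set_option autoImplicit false

namespace Pool.Agent.Results.MP_29b22a_nt.AllCyclicCubicFields

open NumberField
open Pool.Agent.TH841.NF.D (Sha)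
open scoped Classical

/-- The curve `E_D : y² + D y = x³`. -/
def curve {F : Type} [Field F] (D : F) : WeierstrassCurve F := ⟨0, 0, D, 0, 0⟩

/-- `ord_{s = 1} L = 0 = dim V¹` for `X = W`: `W` is an elliptic curve over `F`, `CH¹(X)⁰ = W(F)` is
finite, and the `L`-series of `W` continues analytically from `Re s > 3 / 2` to a connected open set
that contains `1`, where its order of vanishing is equal to the rank of `W(F)`. -/
def BothZero {F : Type} [Field F] [NumberField F] (W : WeierstrassCurve F) : Prop :=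
  W.IsElliptic ∧ Finite W.toAffine.Point ∧
  ∃ (U : Set ℂ) (L : ℂ → ℂ),
    IsOpen U ∧ IsConnected U ∧ {s : ℂ | (3 / 2 : ℝ) < s.re} ⊆ U ∧ (1 : ℂ) ∈ U ∧
    AnalyticOnNhd ℂ L U ∧ (∀ s : ℂ, (3 / 2 : ℝ) < s.re → L s = W.LSeries s) ∧
    (∀ r : ℕ, r < Module.finrank ℤ W.toAffine.Point → iteratedDeriv r L 1 = 0) ∧
    iteratedDeriv (Module.finrank ℤ W.toAffine.Point) L 1 ≠ 0

/-- `E_D(K)` is finite and the `3`-primary part of `Ш(E_D / K)` is trivial. -/
def FiniteAndTrivial {K : Type} [Field K] [NumberField K] (D : K) : Prop :=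
  Finite (curve D).toAffine.Point ∧ ∀ (k : ℕ) (x : Sha (curve D)), 3 ^ k • x = 0 → x = 0

/-- `F` is a cyclic cubic field. -/
def IsCyclicCubic (F : Type) [Field F] [NumberField F] : Prop :=
  Module.finrank ℚ F = 3 ∧ IsGalois ℚ F

/-- The subfields `F` of `ℂ` that are cyclic cubic fields of conductor at most `X` (the conductor is
the square root of the discriminant). -/
def fields (X : ℕ) : Set (Subfield ℂ) :=
  {F | ∃ _ : NumberField F, IsCyclicCubic F ∧ discr F ≤ (X : ℤ) ^ 2}

/-- Those in which `3` ramifies. -/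
def ramified (X : ℕ) : Set (Subfield ℂ) := {F ∈ fields X | ∀ _ : NumberField F, (3 : ℤ) ∣ discr F}

/-- Those in which `3` does not ramify. -/
def unramified (X : ℕ) : Set (Subfield ℂ) :=
  {F ∈ fields X | ∀ _ : NumberField F, ¬ (3 : ℤ) ∣ discr F}

/-- `F` is the field of the pair `(u, v)`, with conductor `n` if `3 ∣ v` and `9 n` otherwise. -/
def IsPair (F : Type) [Field F] [NumberField F] (u v n : ℕ) : Prop :=
  0 < u ∧ 0 < v ∧ 4 * n = u ^ 2 + 3 * v ^ 2 ∧ Squarefree n ∧ ¬ 3 ∣ n ∧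
    (3 ∣ v → discr F = (n : ℤ) ^ 2) ∧ (¬ 3 ∣ v → discr F = (9 * (n : ℤ)) ^ 2) ∧
    ∃ θ : F, θ ^ 3 = 3 * (n : F) * θ + (n : F) * (u : F)

/-- `F` is good for `q`: for the pair `(u, v)` of `F`, the twist of `E` by `q n β`,
`β = (u + v √-3) / 2`, has finitely many points over `K` and the `3`-primary part of its
Tate-Shafarevich group is trivial. -/
def Good (K : Type) [Field K] [NumberField K] (q : ℕ) (F : Type) [Field F] [NumberField F] : Prop :=
  ∃ u v n : ℕ, IsPair F u v n ∧ ∀ s : K, s ^ 2 = -3 →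
    FiniteAndTrivial ((q : K) * (n : K) * (((u : K) + (v : K) * s) / 2))

section proof

open Filter Topology

/-- a mediant of two sequences of fractions with the same limit -/
theorem mediant {a b a' b' : ℕ → ℝ} {c : ℝ} (h : Tendsto (fun n => a n / b n) atTop (𝓝 c))
    (h' : Tendsto (fun n => a' n / b' n) atTop (𝓝 c)) (hb : ∀ᶠ n in atTop, 0 < b n)
    (hb' : ∀ᶠ n in atTop, 0 < b' n) :
    Tendsto (fun n => (a n + a' n) / (b n + b' n)) atTop (𝓝 c) := by
  have h0 : Tendsto (fun n => |a n / b n - c| + |a' n / b' n - c|) atTop (𝓝 0) := by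
    have h1 := (tendsto_sub_nhds_zero_iff.2 h).abs
    have h2 := (tendsto_sub_nhds_zero_iff.2 h').abs
    have h3 := h1.add h2
    rwa [abs_zero, add_zero] at h3
  apply tendsto_sub_nhds_zero_iff.1
  refine squeeze_zero_norm' ?_ h0
  filter_upwards [hb, hb'] with n hn hn'
  rw [Real.norm_eq_abs]
  set x := a n / b n - c with hx
  set x' := a' n / b' n - c with hx'
  have e : a n = b n * (x + c) := by
    rw [hx]
    field_simp
    ring
  have e' : a' n = b' n * (x' + c) := by
    rw [hx']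
    field_simp
    ring
  have hs : 0 < b n + b' n := add_pos hn hn'
  have e1 : (a n + a' n) / (b n + b' n) - c = (b n * x + b' n * x') / (b n + b' n) := by
    rw [e, e']
    field_simp
    ring
  rw [e1, abs_div, abs_of_pos hs, div_le_iff₀ hs]
  have h1 : |b n * x + b' n * x'| ≤ b n * |x| + b' n * |x'| := by
    refine (abs_add_le _ _).trans ?_
    rw [abs_mul, abs_mul, abs_of_pos hn, abs_of_pos hn']
  have h2 := abs_nonneg x
  have h3 := abs_nonneg x'
  nlinarith [mul_nonneg hn'.le h2, mul_nonneg hn.le h3]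

theorem not_three {u v n : ℕ} (h : 4 * n = u ^ 2 + 27 * v ^ 2) (hn : Squarefree n) : ¬ 3 ∣ n := by
  rintro ⟨m, rfl⟩
  have h1 : 3 ∣ u ^ 2 := by
    have : u ^ 2 = 3 * (4 * m) - 3 * (9 * v ^ 2) := by omega
    rw [this]
    exact Nat.dvd_sub (dvd_mul_right _ _) (dvd_mul_right _ _)
  obtain ⟨w, rfl⟩ := Nat.prime_three.dvd_of_dvd_pow h1
  have h2 : 4 * m = 3 * (w ^ 2 + 3 * v ^ 2) := by
    have : (3 * w) ^ 2 = 9 * w ^ 2 := by ring
    omega
  have h3 : 3 ∣ m := by
    have h4 : 3 ∣ 4 * m := ⟨_, h2⟩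
    exact (Nat.Coprime.dvd_mul_left (by norm_num)).1 h4
  obtain ⟨k, rfl⟩ := h3
  have h5 := hn 3 ⟨k, by ring⟩
  exact absurd (Nat.isUnit_iff.1 h5) (by norm_num)

/-- the pairs of the unramified fields -/
theorem pair_u {F : Type} [Field F] [NumberField F] (hd : ¬ (3 : ℤ) ∣ discr F) {u v n : ℕ} :
    IsPair F u v n ↔
      ∃ w, v = 3 * w ∧ Pool.Agent.Results.MP_32c55d_nt.CyclicCubicFields.IsPair F u w n := by
  constructor
  · rintro ⟨h1, h2, h3, h4, h5, h6, h7, h8⟩
    by_cases hv : 3 ∣ v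
    · obtain ⟨w, rfl⟩ := hv
      refine ⟨w, rfl, h1, by omega, ?_, h4, h6 ⟨w, rfl⟩, h8⟩
      rw [h3]
      ring
    · exfalso
      apply hd
      rw [h7 hv]
      exact ⟨27 * (n : ℤ) ^ 2, by ring⟩
  · rintro ⟨w, rfl, h1, h2, h3, h4, h5, h6⟩
    refine ⟨h1, by omega, ?_, h4, not_three h3 h4, fun _ => h5, fun h => absurd ⟨w, rfl⟩ h, h6⟩
    rw [h3]
    ring

/-- the pairs of the ramified fields -/
theorem pair_r {F : Type} [Field F] [NumberField F] (hd : (3 : ℤ) ∣ discr F) {u v n : ℕ} :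
    IsPair F u v n ↔
      Pool.Agent.Results.MP_1d384c_nt.CubicFieldsRamifiedAtThree.IsPair F u v n := by
  constructor
  · rintro ⟨h1, h2, h3, h4, h5, h6, h7, h8⟩
    by_cases hv : 3 ∣ v
    · exfalso
      rw [h6 hv] at hd
      have h9 : (3 : ℤ) ∣ (n : ℤ) := Int.prime_three.dvd_of_dvd_pow hd
      exact h5 (by exact_mod_cast h9)
    · exact ⟨h1, h2, hv, h3, h4, h5, h7 hv, h8⟩
  · rintro ⟨h1, h2, h3, h4, h5, h6, h7, h8⟩
    exact ⟨h1, h2, h4, h5, h6, fun h => absurd h h3, fun _ => h7, h8⟩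

theorem good_u {K : Type} [Field K] [NumberField K] {q : ℕ} {F : Type} [Field F] [NumberField F]
    (hd : ¬ (3 : ℤ) ∣ discr F) : Good K q F ↔
      Pool.Agent.Results.MP_32c55d_nt.CyclicCubicFields.Good K q F := by
  have e : ∀ (w : ℕ) (s : K), (((3 * w : ℕ) : K)) * s = 3 * (w : K) * s := fun w s => by
    push_cast
    rfl
  constructor
  · rintro ⟨u, v, n, hp, h⟩
    obtain ⟨w, rfl, hp'⟩ := (pair_u hd).1 hp
    refine ⟨u, w, n, hp', fun s hs => ?_⟩
    have := h s hs
    rw [e] at this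
    exact this
  · rintro ⟨u, w, n, hp, h⟩
    refine ⟨u, 3 * w, n, (pair_u hd).2 ⟨w, rfl, hp⟩, fun s hs => ?_⟩
    rw [e]
    exact h s hs

theorem good_r {K : Type} [Field K] [NumberField K] {q : ℕ} {F : Type} [Field F] [NumberField F]
    (hd : (3 : ℤ) ∣ discr F) : Good K q F ↔
      Pool.Agent.Results.MP_1d384c_nt.CubicFieldsRamifiedAtThree.Good K q F := by
  constructor
  · rintro ⟨u, v, n, hp, h⟩
    exact ⟨u, v, n, (pair_r hd).1 hp, h⟩
  · rintro ⟨u, v, n, hp, h⟩
    exact ⟨u, v, n, (pair_r hd).2 hp, h⟩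

theorem unram_eq (X : ℕ) : unramified X =
    Pool.Agent.Results.MP_32c55d_nt.CyclicCubicFields.fields X := by
  ext F
  constructor
  · rintro ⟨⟨hN, h1, h2⟩, h3⟩
    exact ⟨hN, ⟨h1.1, h1.2, h3 hN⟩, h2⟩
  · rintro ⟨hN, ⟨h1, h2, h3⟩, h4⟩
    exact ⟨⟨hN, ⟨h1, h2⟩, h4⟩, fun _ => h3⟩

theorem ram_eq (X : ℕ) : ramified X =
    Pool.Agent.Results.MP_1d384c_nt.CubicFieldsRamifiedAtThree.fields X := by
  ext F
  constructor
  · rintro ⟨⟨hN, h1, h2⟩, h3⟩
    exact ⟨hN, ⟨h1.1, h1.2, h3 hN⟩, h2⟩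
  · rintro ⟨hN, ⟨h1, h2, h3⟩, h4⟩
    exact ⟨⟨hN, ⟨h1, h2⟩, h4⟩, fun _ => h3⟩

theorem union_eq (X : ℕ) : fields X = unramified X ∪ ramified X := by
  ext F
  constructor
  · intro hF
    obtain ⟨hN, -, -⟩ := id hF
    by_cases h : (3 : ℤ) ∣ discr F
    · exact Or.inr ⟨hF, fun _ => h⟩
    · exact Or.inl ⟨hF, fun _ => h⟩
  · rintro (h | h)
    · exact h.1
    · exact h.1

theorem disj (X : ℕ) : Disjoint (unramified X) (ramified X) := by
  rw [Set.disjoint_left]
  rintro F ⟨⟨hN, -, -⟩, h1⟩ ⟨-, h2⟩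
  exact h1 hN (h2 hN)

end proof

/-- **Main theorem.**  `q` is a prime `≡ 2` or `5` modulo `9`.  Every cyclic cubic field belongs to
exactly one pair.  At least `c X` of the cyclic cubic subfields of `ℂ` have conductor at most `X`.
The proportion of the good fields among all of them tends to `∏_{i ≥ 0} (1 - 3^{-(2 i + 1)}) > 0.639`,
and so does the proportion among those in which `3` ramifies, and among those in which it does not.
For every good `F` the curve `X : y² + q y = x³` over `F` has `dim V¹ = 0 = ord_{s = 1} L(X, s)`, and `3`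
kills the `3`-primary part of its Tate-Shafarevich group over `F`; in particular the first two
properties hold for at least `63.9` percent of all cyclic cubic fields of large conductor. -/
theorem result (K : Type) [Field K] [NumberField K] [IsCyclotomicExtension {3} ℚ K] (q : ℕ)
    (hq : q.Prime) (hq9 : q % 9 = 2 ∨ q % 9 = 5) :
    (∀ (F : Type) [Field F] [NumberField F], IsCyclicCubic F →
      ∃! uv : ℕ × ℕ, ∃ n : ℕ, IsPair F uv.1 uv.2 n) ∧
    (∃ c : ℝ, 0 < c ∧ ∃ X₀ : ℕ, ∀ X : ℕ, X₀ ≤ X →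
      c * X ≤ ((unramified X).ncard : ℝ) ∧ c * X ≤ ((ramified X).ncard : ℝ)) ∧
    Filter.Tendsto (fun X : ℕ =>
      ({F ∈ fields X | ∀ _ : NumberField F, Good K q F}.ncard : ℝ) / ((fields X).ncard : ℝ))
      Filter.atTop (nhds (∏' i : ℕ, (1 - (1 / 3 : ℝ) ^ (2 * i + 1)))) ∧
    Filter.Tendsto (fun X : ℕ =>
      ({F ∈ unramified X | ∀ _ : NumberField F, Good K q F}.ncard : ℝ) /
        ((unramified X).ncard : ℝ))
      Filter.atTop (nhds (∏' i : ℕ, (1 - (1 / 3 : ℝ) ^ (2 * i + 1)))) ∧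
    Filter.Tendsto (fun X : ℕ =>
      ({F ∈ ramified X | ∀ _ : NumberField F, Good K q F}.ncard : ℝ) / ((ramified X).ncard : ℝ))
      Filter.atTop (nhds (∏' i : ℕ, (1 - (1 / 3 : ℝ) ^ (2 * i + 1)))) ∧
    (0.639 : ℝ) < ∏' i : ℕ, (1 - (1 / 3 : ℝ) ^ (2 * i + 1)) ∧
    (∀ (F : Type) [Field F] [NumberField F], IsCyclicCubic F → Good K q F →
      BothZero (curve (q : F)) ∧
      ∀ (k : ℕ) (x : Sha (curve (q : F))), 3 ^ k • x = 0 → 3 • x = 0) ∧
    ∃ X₀ : ℕ, ∀ X : ℕ, X₀ ≤ X → (fields X).Finite ∧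
      0.639 * ((fields X).ncard : ℝ) ≤
        ({F ∈ fields X | ∀ _ : NumberField F, BothZero (curve (q : F))}.ncard : ℝ) := by
  obtain ⟨u1, u2, u3, u4, u5⟩ :=
    Pool.Agent.Results.MP_32c55d_nt.CyclicCubicFields.result K q hq hq9
  obtain ⟨r1, r2, r3, -, r5⟩ :=
    Pool.Agent.Results.MP_1d384c_nt.CubicFieldsRamifiedAtThree.result K q hq hq9
  -- the two proportions
  have gu : ∀ X : ℕ, {F ∈ unramified X | ∀ _ : NumberField F, Good K q F} =
      {F ∈ Pool.Agent.Results.MP_32c55d_nt.CyclicCubicFields.fields X | ∀ _ : NumberField F,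
        Pool.Agent.Results.MP_32c55d_nt.CyclicCubicFields.Good K q F} := by
    intro X
    rw [unram_eq]
    ext F
    constructor
    · rintro ⟨hF, h⟩
      obtain ⟨hN, ⟨-, -, h3⟩, -⟩ := id hF
      exact ⟨hF, fun _ => (good_u h3).1 (h _)⟩
    · rintro ⟨hF, h⟩
      obtain ⟨hN, ⟨-, -, h3⟩, -⟩ := id hF
      exact ⟨hF, fun _ => (good_u h3).2 (h _)⟩
  have gr : ∀ X : ℕ, {F ∈ ramified X | ∀ _ : NumberField F, Good K q F} =
      {F ∈ Pool.Agent.Results.MP_1d384c_nt.CubicFieldsRamifiedAtThree.fields X |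
        ∀ _ : NumberField F,
          Pool.Agent.Results.MP_1d384c_nt.CubicFieldsRamifiedAtThree.Good K q F} := by
    intro X
    rw [ram_eq]
    ext F
    constructor
    · rintro ⟨hF, h⟩
      obtain ⟨hN, ⟨-, -, h3⟩, -⟩ := id hF
      exact ⟨hF, fun _ => (good_r h3).1 (h _)⟩
    · rintro ⟨hF, h⟩
      obtain ⟨hN, ⟨-, -, h3⟩, -⟩ := id hF
      exact ⟨hF, fun _ => (good_r h3).2 (h _)⟩
  have tu : Filter.Tendsto (fun X : ℕ =>
      ({F ∈ unramified X | ∀ _ : NumberField F, Good K q F}.ncard : ℝ) /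
        ((unramified X).ncard : ℝ))
      Filter.atTop (nhds (∏' i : ℕ, (1 - (1 / 3 : ℝ) ^ (2 * i + 1)))) := by
    refine u3.congr fun X => ?_
    rw [gu, unram_eq]
  have tr : Filter.Tendsto (fun X : ℕ =>
      ({F ∈ ramified X | ∀ _ : NumberField F, Good K q F}.ncard : ℝ) / ((ramified X).ncard : ℝ))
      Filter.atTop (nhds (∏' i : ℕ, (1 - (1 / 3 : ℝ) ^ (2 * i + 1)))) := by
    refine r3.congr fun X => ?_
    rw [gr, ram_eq]
  -- the numbers of fields
  have many : ∃ c : ℝ, 0 < c ∧ ∃ X₀ : ℕ, ∀ X : ℕ, X₀ ≤ X →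
      c * X ≤ ((unramified X).ncard : ℝ) ∧ c * X ≤ ((ramified X).ncard : ℝ) := by
    obtain ⟨c, hc, X₁, h1⟩ := u2
    obtain ⟨d, hd, X₂, h2⟩ := r2
    refine ⟨min c d, lt_min hc hd, max X₁ X₂, fun X hX => ?_⟩
    have hX0 : (0 : ℝ) ≤ X := Nat.cast_nonneg X
    rw [unram_eq, ram_eq]
    exact ⟨(mul_le_mul_of_nonneg_right (min_le_left c d) hX0).trans
      (h1 X (le_trans (le_max_left _ _) hX)),
      (mul_le_mul_of_nonneg_right (min_le_right c d) hX0).trans
      (h2 X (le_trans (le_max_right _ _) hX))⟩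
  have pos : ∀ᶠ X : ℕ in Filter.atTop, 0 < ((unramified X).ncard : ℝ) ∧
      0 < ((ramified X).ncard : ℝ) := by
    obtain ⟨c, hc, X₀, h⟩ := many
    filter_upwards [Filter.eventually_ge_atTop X₀, Filter.eventually_ge_atTop 1] with X h1 h2
    have h3 : (1 : ℝ) ≤ X := by exact_mod_cast h2
    obtain ⟨h4, h5⟩ := h X h1
    constructor <;> nlinarith
  have fin : ∀ᶠ X : ℕ in Filter.atTop, (unramified X).Finite ∧ (ramified X).Finite := by
    filter_upwards [pos] with X hX
    exact ⟨Set.finite_of_ncard_pos (by exact_mod_cast hX.1),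
      Set.finite_of_ncard_pos (by exact_mod_cast hX.2)⟩
  have hall : Filter.Tendsto (fun X : ℕ =>
      ({F ∈ fields X | ∀ _ : NumberField F, Good K q F}.ncard : ℝ) / ((fields X).ncard : ℝ))
      Filter.atTop (nhds (∏' i : ℕ, (1 - (1 / 3 : ℝ) ^ (2 * i + 1)))) := by
    refine (mediant tu tr (pos.mono fun _ h => h.1) (pos.mono fun _ h => h.2)).congr' ?_
    filter_upwards [fin] with X hX
    have e1 : (fields X).ncard = (unramified X).ncard + (ramified X).ncard := by
      rw [union_eq, Set.ncard_union_eq (disj X) hX.1 hX.2]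
    have e2 : {F ∈ fields X | ∀ _ : NumberField F, Good K q F}.ncard =
        {F ∈ unramified X | ∀ _ : NumberField F, Good K q F}.ncard +
          {F ∈ ramified X | ∀ _ : NumberField F, Good K q F}.ncard := by
      rw [← Set.ncard_union_eq ((disj X).mono (fun _ h => h.1) (fun _ h => h.1))
        (hX.1.subset fun _ h => h.1) (hX.2.subset fun _ h => h.1)]
      congr 1
      ext F
      constructor
      · rintro ⟨hF, h⟩
        rw [union_eq] at hF
        rcases hF with hF | hF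
        · exact Or.inl ⟨hF, h⟩
        · exact Or.inr ⟨hF, h⟩
      · rintro (⟨hF, h⟩ | ⟨hF, h⟩)
        · exact ⟨hF.1, h⟩
        · exact ⟨hF.1, h⟩
    rw [e1, e2]
    push_cast
    rfl
  have s5 : ∀ (F : Type) [Field F] [NumberField F], IsCyclicCubic F → Good K q F →
      BothZero (curve (q : F)) ∧
      ∀ (k : ℕ) (x : Sha (curve (q : F))), 3 ^ k • x = 0 → 3 • x = 0 := by
    intro F _ _ h1 h2
    by_cases hd : (3 : ℤ) ∣ discr F
    · exact r5 F ⟨h1.1, h1.2, hd⟩ ((good_r hd).1 h2)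
    · exact u5 F ⟨h1.1, h1.2, hd⟩ ((good_u hd).1 h2)
  refine ⟨fun F _ _ hF => ?_, many, hall, tu, tr, u4, s5, ?_⟩
  · by_cases hd : (3 : ℤ) ∣ discr F
    · obtain ⟨b, ⟨n, hb⟩, hb'⟩ := r1 F ⟨hF.1, hF.2, hd⟩
      refine ⟨b, ⟨n, (pair_r hd).2 hb⟩, ?_⟩
      rintro b' ⟨n', h⟩
      exact hb' b' ⟨n', (pair_r hd).1 h⟩
    · obtain ⟨b, ⟨n, hb⟩, hb'⟩ := u1 F ⟨hF.1, hF.2, hd⟩
      refine ⟨(b.1, 3 * b.2), ⟨n, (pair_u hd).2 ⟨b.2, rfl, hb⟩⟩, ?_⟩
      rintro ⟨u', v'⟩ ⟨n', h⟩
      obtain ⟨w, hw, h'⟩ := (pair_u hd).1 h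
      have e := hb' (u', w) ⟨n', h'⟩
      rw [← e]
      simp only at hw
      rw [hw]
  · have h4 := hall.eventually (lt_mem_nhds u4)
    obtain ⟨X₀, hX₀⟩ := Filter.eventually_atTop.1 ((h4.and fin).and pos)
    refine ⟨X₀, fun X hX => ?_⟩
    obtain ⟨⟨h7, hf1, hf2⟩, hp1, hp2⟩ := hX₀ X hX
    have hfin : (fields X).Finite := by
      rw [union_eq]
      exact hf1.union hf2
    have h6 : (0 : ℝ) < ((fields X).ncard : ℝ) := by
      rw [union_eq, Set.ncard_union_eq (disj X) hf1 hf2]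
      push_cast
      exact add_pos hp1 hp2
    refine ⟨hfin, ?_⟩
    rw [lt_div_iff₀ h6] at h7
    refine h7.le.trans ?_
    have h8 : {F ∈ fields X | ∀ _ : NumberField F, Good K q F} ⊆
        {F ∈ fields X | ∀ _ : NumberField F, BothZero (curve (q : F))} := by
      rintro F ⟨hF, hG⟩
      refine ⟨hF, fun hN => ?_⟩
      obtain ⟨hN', hr, -⟩ := hF
      exact (s5 F hr (hG hN)).1
    exact_mod_cast Set.ncard_le_ncard h8 (hfin.subset fun F hF => hF.1)

end Pool.Agent.Results.MP_29b22a_nt.AllCyclicCubicFields
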