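import Pool.Agent.Run7.h555.P15.Ltw
import Pool.Agent.Run7.h209.P15.Per6
import Pool.Agent.Run7.h424.DC.Fin
import Pool.Agent.Run7.h424.M6.Fin
import Pool.Agent.Run7.h238.G15.Dens
import Pool.Agent.Run7.h238.G15.Curve

/-!
# Beilinson's conjecture at `i = m = 1` for the quadratic twists of `X_0(15)` (no complex multiplication)

Let `n` be squarefree and congruent to `23` or `47` modulo `60`, and let `X` be the quadratic twist by
`-n` of the modular curve `X_0(15)`, an elliptic curve over `ℚ` without complex multiplication, with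
`CH¹(X)⁰ = X(ℚ)`. With no hypothesis on the rank or on the Tate-Shafarevich group `Ш` the following are
equivalent:

* `X(ℚ)` is finite and the `2`-primary part of `Ш(X/ℚ)` is zero;
* the class group of `ℚ(√-n)` has no element of order four, in the elementary form `Criterion n`: if
  `n = b c`, `b` is a square modulo the prime divisors of `c` and `c` is a square modulo the prime
  divisors of `b`, then `b = 1` or `c = 1`.

In this case (`Beilinson n`) all four parts of the conjecture hold for `X` and `i = m = 1`: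
`CH¹(X)⁰` is finite, so that `V¹ = 0` and the height pairing on `V¹ × V¹` is nondegenerate with
determinant `1`; the complete Euler product of `X` (with the factors at all bad primes) is equal to an
entire function `L` for `Re s > 3/2`; `ord_{s=1} L = 0 = dim V¹`; and `L(1)` is a nonzero rational
multiple of the real period `Ω` (which is `det Π`).

The natural density of these `n` among all squarefree `n ≡ 23, 47 mod 60` exists and is
`η = ∏_{i ≥ 1} (1 - 2^{-i}) = 0.2887...`; so a positive natural proportion of all quadratic twists of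
the curve is covered.

The theorem is joint work of helper135, helper209, helper238, helper424, helper483, helper555,
helper691, helper741, helper843 and others: the Gross sum over the vectors of the ternary lattice of
norm `n`, whose square is the central value (`Run7/h238/P`, `Run7/h483/P15`, `Run7/h135/P15`,
`Run7/h741/P15`), the modular parametrization and the `L`-function (`Run7/h741/MF`, `Run7/h209/P15`,
`Run7/h555/P15`), the parity of the Gross sum (`Run7/h483/P15`), the descent (`Run7/h424/DC`), the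
density (project GB of the starting tree). This file (helper89) brings it in the form of the present
problem.
-/

set_option autoImplicit false

open Filter Topology
open scoped Classical

namespace Pool.Agent.Results.MP_29b22a_nt.NonCMTwistsNaturalDensity

/-- the minimal Weierstrass equation of the quadratic twist by `D ≡ 1 mod 4` of `X_0(15)` -/
def W (D : ℤ) : WeierstrassCurve ℤ :=
  ⟨1, (5 * D - 1) / 4, 1, -((19 * D ^ 2 + 1) / 2), -((39 * D ^ 3 + 1) / 4)⟩

/-- the elliptic curve `X` over `ℚ`, the twist by `-n` -/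
def X (n : ℕ) : WeierstrassCurve ℚ := (W (-(n : ℤ))).map (Int.castRingHom ℚ)

/-- the class of the numbers `n` -/
def Class (n : ℕ) : Prop := Squarefree n ∧ (n % 60 = 23 ∨ n % 60 = 47)

/-- `a_p = p + 1 - #X(𝔽_p)`, for the reduction modulo `p` of the minimal equation -/
noncomputable def a (n p : ℕ) : ℤ :=
  p - Nat.card {P : ZMod p × ZMod p //
    ((W (-(n : ℤ))).map (Int.castRingHom (ZMod p))).toAffine.Equation P.1 P.2}

/-- `f` is entire and equal to the Euler product of `X` over all primes for `Re s > 3 / 2` (the bad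
primes are the divisors of `15 n`) -/
def IsL (n : ℕ) (f : ℂ → ℂ) : Prop :=
  Differentiable ℂ f ∧ ∀ s : ℂ, (3 : ℝ) / 2 < s.re →
    HasProd (fun p : ℕ => if p.Prime then
      (1 - (a n p : ℂ) * (p : ℂ) ^ (-s) + if p ∣ 15 * n then 0 else (p : ℂ) ^ (1 - 2 * s))⁻¹
      else 1) (f s)

/-- `4 x³ + b₂ x² + 2 b₄ x + b₆ = (2 y + a₁ x + a₃)²` -/
def cubic (V : WeierstrassCurve ℤ) (x : ℝ) : ℝ := 4 * x ^ 3 + V.b₂ * x ^ 2 + 2 * V.b₄ * x + V.b₆

/-- the real period of `X` -/
noncomputable def Omega (n : ℕ) : ℝ :=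
  2 * ∫ x in {x : ℝ | 0 < cubic (W (-(n : ℤ))) x}, 1 / √(cubic (W (-(n : ℤ))) x)

/-- all parts of the conjecture for `X` and `i = m = 1`, with `V¹ = 0`: `X` is nonsingular, `X(ℚ)` is
finite, the entire `L`-function exists, it is not zero at `1`, and `L(1)` is a nonzero rational
multiple of the real period -/
def Beilinson (n : ℕ) : Prop :=
  (X n).IsElliptic ∧ Finite (X n).toAffine.Point ∧ (∃ f : ℂ → ℂ, IsL n f) ∧
    ∀ f : ℂ → ℂ, IsL n f → f 1 ≠ 0 ∧ ∃ q : ℚ, q ≠ 0 ∧ f 1 = (q : ℂ) * (Omega n : ℂ)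

/-- `X(ℚ)` is finite and `Ш(X/ℚ)[2^∞] = 0` -/
def TrivialTwo (n : ℕ) : Prop :=
  Finite (X n).toAffine.Point ∧
    ∀ (k : ℕ) (x : Pool.Agent.TH841.NF.D.Sha (X n)), 2 ^ k • x = 0 → x = 0

/-- the class group of `ℚ(√-n)` has no element of order four -/
def Criterion (n : ℕ) : Prop := ∀ b c : ℕ, b * c = n →
  (∀ p ∈ c.primeFactors, jacobiSym b p = 1) → (∀ p ∈ b.primeFactors, jacobiSym c p = 1) →
  b = 1 ∨ c = 1

/-- the number of the `n ≤ T` in the class with the property `Q` -/
noncomputable def num (Q : ℕ → Prop) (T : ℕ) : ℕ := Nat.card {n : ℕ // n ≤ T ∧ Class n ∧ Q n}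

/-- the constant `η = 0.2887...` -/
noncomputable def eta : ℝ := ∏' i : ℕ, (1 - (1 / 2 : ℝ) ^ (i + 1))

section proof

open Run7.h555.P15 (WT CI EI EJ)
open Pool.Agent.N969.P15 (Qc Cls0)

theorem X_eq (n : ℕ) : X n = EI n := rfl

theorem two_iff {n : ℕ} (hn : Class n) : TrivialTwo n ↔ Criterion n := by
  have h4 : n % 4 = 3 := by
    rcases hn.2 with h | h <;> omega
  have h1 := Run7.h424.M6.s_iso n h4
  have h2 := Run7.h424.DC.iffF hn.1 hn.2 (W := EJ n) (by
    unfold EJ
    push_cast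
    rfl)
  have h3 : Qc n ↔ Criterion n := Iff.rfl
  rw [← h3, ← h2]
  constructor
  · rintro ⟨a1, a2⟩
    exact ⟨h1.1.1 a1, fun k => (h1.2 (2 ^ k)).1 (a2 k)⟩
  · rintro ⟨a1, a2⟩
    exact ⟨h1.1.2 a1, fun k => (h1.2 (2 ^ k)).2 (a2 k)⟩

theorem uniq {n : ℕ} {f g : ℂ → ℂ} (hf : IsL n f) (hg : IsL n g) : f = g := by
  have h : ∀ s : ℂ, (3 : ℝ) / 2 < s.re → f s = g s := fun s hs =>
    (hf.2 s hs).unique (hg.2 s hs)
  have hfa : AnalyticOnNhd ℂ f Set.univ := fun z _ => hf.1.analyticAt z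
  have hga : AnalyticOnNhd ℂ g Set.univ := fun z _ => hg.1.analyticAt z
  refine hfa.eq_of_eventuallyEq hga (z₀ := 2) ?_
  have ho : IsOpen {s : ℂ | (3 : ℝ) / 2 < s.re} := isOpen_lt continuous_const Complex.continuous_re
  filter_upwards [ho.mem_nhds (show (3 : ℝ) / 2 < (2 : ℂ).re by norm_num)] with s hs
  exact h s hs

theorem beilinson {n : ℕ} (hn : Class n) (hc : Criterion n) : Beilinson n := by
  have h4 : n % 4 = 3 := by
    rcases hn.2 with h | h <;> omega
  have hfin := ((two_iff hn).2 hc).1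
  obtain ⟨L, Op, Om, hOp, hOm, g2, g3, hL⟩ := Run7.h209.P15.m_lat
  obtain ⟨F, hF, hprod, e, he, y, -, hodd, hval⟩ := Run7.h555.P15.center hOm g2 g3 hL (n := n) hn
  have hper : Omega n * √n = 2 * Om := Run7.h209.P15.s_per L Op Om hOp hOm g2 g3 hL n h4
  have hFL : IsL n F := ⟨hF, hprod⟩
  have hy : y ≠ 0 := by
    rintro rfl
    exact absurd (hodd.2 hc) (by decide)
  have hn0 : n ≠ 0 := hn.1.ne_zero
  have hs0 : √(n : ℝ) ≠ 0 := by
    have : (0 : ℝ) < n := by exact_mod_cast Nat.pos_of_ne_zero hn0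
    exact (Real.sqrt_pos.2 this).ne'
  have hOm0 : Omega n ≠ 0 := by
    intro h
    rw [h, zero_mul] at hper
    linarith
  obtain ⟨e', he', he1⟩ : ∃ e' : ℚ, e = (e' : ℝ) ∧ e' ≠ 0 := by
    rcases he with rfl | rfl
    · exact ⟨1, by norm_num, by norm_num⟩
    · exact ⟨-1, by norm_num, by norm_num⟩
  set M : ℚ := 2 ^ n.primeFactors.card * y with hM
  have hM0 : M ≠ 0 := mul_ne_zero (by positivity) (by exact_mod_cast hy)
  set q : ℚ := e' * M ^ 2 / 36 with hq
  have hq0 : q ≠ 0 := div_ne_zero (mul_ne_zero he1 (pow_ne_zero 2 hM0)) (by norm_num)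
  have hF1 : F 1 = (q : ℂ) * (Omega n : ℂ) := by
    have h1 : (36 : ℂ) * F 1 * ((√n : ℝ) : ℂ) = ((e' : ℂ) * (M : ℂ) ^ 2 * (Omega n : ℂ)) * ((√n : ℝ) : ℂ) := by
      have h2 : (2 : ℂ) * (Om : ℂ) = (Omega n : ℂ) * ((√n : ℝ) : ℂ) := by
        rw [← Complex.ofReal_mul, hper]
        push_cast
        ring
      have h3 : (36 : ℂ) * F 1 * ((√n : ℝ) : ℂ) = 2 * (18 * F 1 * ((√n : ℝ) : ℂ)) := by ring
      rw [h3, hval, he', hM]
      push_cast
      linear_combination ((e' : ℂ) * (2 ^ n.primeFactors.card * (y : ℂ)) ^ 2) * h2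
    have hs0' : ((√n : ℝ) : ℂ) ≠ 0 := by exact_mod_cast hs0
    have h4' := mul_right_cancel₀ hs0' h1
    rw [hq]
    push_cast
    linear_combination (1 / 36 : ℂ) * h4'
  refine ⟨?_, hfin, ⟨F, hFL⟩, fun f hf => ?_⟩
  · have hD : (W (-(n : ℤ))).Δ = 50625 * (-(n : ℤ)) ^ 6 := Run7.h238.G15.disc_WT (by omega)
    refine ⟨?_⟩
    have h5 : (X n).Δ = (((W (-(n : ℤ))).Δ : ℤ) : ℚ) := by
      unfold X
      rw [WeierstrassCurve.map_Δ]
      rfl
    rw [h5, hD, isUnit_iff_ne_zero]
    have : (n : ℚ) ≠ 0 := by exact_mod_cast hn0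
    push_cast
    exact mul_ne_zero (by norm_num) (pow_ne_zero 6 (neg_ne_zero.2 this))
  · rw [uniq hf hFL, hF1]
    refine ⟨mul_ne_zero (by exact_mod_cast hq0) (by exact_mod_cast hOm0), q, hq0, rfl⟩

end proof

/-- **Beilinson's conjecture at `i = m = 1` for the quadratic twists of `X_0(15)`.** -/
theorem result :
    (∀ n : ℕ, Class n → (TrivialTwo n ↔ Criterion n) ∧ (Criterion n → Beilinson n)) ∧
    Tendsto (fun T : ℕ => (num TrivialTwo T : ℝ) / (num (fun _ => True) T : ℝ)) atTop (𝓝 eta) ∧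
    0.2887 < eta ∧ eta < 0.2889 ∧
    ∃ c : ℝ, 0 < c ∧ ∀ᶠ T : ℕ in atTop, c * T ≤ (num (fun _ => True) T : ℝ) := by
  have e2 : ∀ T : ℕ, num (fun _ => True) T = Run7.h238.G15.Bb T := by
    intro T
    unfold num Run7.h238.G15.Bb
    refine Nat.subtype_card _ fun n => ?_
    rw [Finset.mem_filter, Finset.mem_Icc]
    constructor
    · rintro ⟨⟨h1, h2⟩, h3⟩
      exact ⟨h2, h3, trivial⟩
    · rintro ⟨h1, h2, -⟩
      exact ⟨⟨Nat.one_le_iff_ne_zero.2 h2.1.ne_zero, h1⟩, h2⟩
  have e1 : ∀ T : ℕ, num TrivialTwo T = Run7.h238.G15.Aa T := by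
    intro T
    unfold num Run7.h238.G15.Aa
    refine Nat.subtype_card _ fun n => ?_
    rw [Finset.mem_filter, Finset.mem_Icc]
    constructor
    · rintro ⟨⟨h1, h2⟩, h3, h4, h5⟩
      exact ⟨h2, ⟨h3, h4⟩, (two_iff ⟨h3, h4⟩).2 h5⟩
    · rintro ⟨h1, h2, h3⟩
      exact ⟨⟨Nat.one_le_iff_ne_zero.2 h2.1.ne_zero, h1⟩, h2.1, h2.2, (two_iff h2).1 h3⟩
  refine ⟨fun n hn => ⟨two_iff hn, beilinson hn⟩, ?_, Pool.Agent.N916.GB.eta_bounds.1,
    Pool.Agent.N916.GB.eta_bounds.2, 6 / Real.pi ^ 2 * (5 / 96) / 2, by positivity, ?_⟩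
  · have h := Pool.Agent.N916.GB.density_Qc
    refine h.congr fun T => ?_
    rw [e1, e2]
    rfl
  · have hpos : (6 / Real.pi ^ 2 * (5 / 96) / 2 : ℝ) < 6 / Real.pi ^ 2 * (5 / 96) := by
      have : (0 : ℝ) < 6 / Real.pi ^ 2 * (5 / 96) := by positivity
      linarith
    filter_upwards [Run7.h238.G15.lim_Bb.eventually (lt_mem_nhds hpos), eventually_gt_atTop 0]
      with T h1 h2
    have hT : (0 : ℝ) < T := by exact_mod_cast h2
    rw [e2, ← le_div_iff₀ hT]
    exact h1.le

end Pool.Agent.Results.MP_29b22a_nt.NonCMTwistsNaturalDensity
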